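import Pool.Agent.H396Z.Ferrier.NotL

set_option autoImplicit false

namespace Pool.Agent.Results.MP_26d9d0_an.NotClosed

open Pool.Agent.H396Z.Ferrier

/-- For every `n ≥ 2` there are Lipschitz weights `δ ≥ δ'` on `ℂⁿ` and a function in the
topological closure of `R` in `O(δ')` that is not a bornological limit of elements of `R`. -/
theorem result : ∀ n : ℕ, 2 ≤ n → ∃ δ δ' : Weight n,
    (∃ K, LipschitzWith K δ.toFun) ∧ (∃ K, LipschitzWith K δ'.toFun) ∧
    (∀ z, δ'.toFun z ≤ δ.toFun z) ∧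
    ∃ u : O δ', u ∈ @closure (O δ') (indTop δ') (R δ δ') ∧ u ∉ L δ δ' := by
  intro n hn
  have hij : (⟨0, by omega⟩ : Fin n) ≠ ⟨1, by omega⟩ := by simp
  exact ⟨w0 _ _, w1 _ _, lip_d0 _ _, lip_d1 _ _, d1_le _ _, uu _ _, uu_mem _ _, uu_not_mem hij⟩

end Pool.Agent.Results.MP_26d9d0_an.NotClosed
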